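import Pool.Agent.J6H40.HCA.B

/-!
# `κ →_hc (λ)²_θ` for all regular `λ`, all `θ < λ` and all `κ > λ`

A graph on an infinite set is highly connected if it stays connected after the removal of any
set of fewer vertices.  For every infinite regular cardinal `λ` and all `θ < λ < κ`, every
colouring of the pairs of a set of size `κ` with `θ` colours has a highly connected
monochromatic subgraph of size `λ`.  For `κ = λ⁺` the bound on the number of colours is optimal:
`λ⁺ →_hc (λ)²_θ` holds exactly if `θ < λ`, and the failure for `θ ≥ λ` does not need that `λ` is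
regular.  There is no hypothesis on cardinal exponentiation.
-/

set_option autoImplicit false

namespace Pool.Agent.Results.MP_7bf93d_lc.AllRegularCardinals

open Set Cardinal Relation

universe u

/-- The graph of the pairs of colour `i`. -/
def colGraph {V C : Type u} (c : Sym2 V → C) (i : C) : SimpleGraph V where
  Adj x y := x ≠ y ∧ c s(x, y) = i
  symm := ⟨fun _ _ h => ⟨h.1.symm, by rw [Sym2.eq_swap]; exact h.2⟩⟩
  loopless := ⟨fun _ h => h.1 rfl⟩

/-- The subgraph of `G` induced on `A` is highly connected. -/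
def HighlyConnected {V : Type u} (G : SimpleGraph V) (A : Set V) : Prop :=
  ∀ Y ⊆ A, #Y < #A → (G.induce (A \ Y)).Connected

/-- The relation `κ →_hc (λ)²_θ`: for every colouring of the pairs of elements of a set `V` of
size `κ` with values in a set `C` of size `θ` there are a colour `i` and a set `A ⊆ V` of size
`λ` on which the graph of the pairs of colour `i` is highly connected. -/
def Arrow (κ lam θ : Cardinal.{u}) : Prop :=
  ∀ (V C : Type u), #V = κ → #C = θ → ∀ c : Sym2 V → C,
    ∃ (i : C) (A : Set V), #A = lam ∧ HighlyConnected (colGraph c i) A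

open Pool.Agent.J6H40.HCA in
theorem positive (κ lam θ : Cardinal.{u}) (hreg : lam.IsRegular) (hκ : lam < κ) (hθ : θ < lam) :
    Arrow κ lam θ := by
  intro V C hV hC c
  let _ : RegCard.{u} := ⟨lam, hreg⟩
  obtain ⟨j, A, hA, h1, h2⟩ := core (V := V) (C := C) (by rw [hC]; exact hθ)
    (by rw [hV]; exact hκ.not_ge)
    (fun j => (colGraph c j).Adj) (fun j a b h => h.symm) fun a b h => ⟨_, h, rfl⟩
  refine ⟨j, A, hA, fun Y _ hY => ?_⟩
  rw [hA] at hY
  obtain ⟨x, hx, hx'⟩ := pkc h1 hY
  have : Nonempty ↥(A \ Y) := ⟨⟨x, hx, hx'⟩⟩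
  refine ⟨fun a b => ?_⟩
  have k : ∀ y, Cn (colGraph c j).Adj (A \ Y) a y → ∀ hy : y ∈ A \ Y,
      ((colGraph c j).induce (A \ Y)).Reachable a ⟨y, hy⟩ := by
    intro y p
    induction p with
    | refl => exact fun _ => SimpleGraph.Reachable.refl _
    | tail _ r ih => exact fun hy => (ih r.1).trans (SimpleGraph.Adj.reachable r.2.2)
  exact k b (h2 Y hY a a.2 b b.2) b.2

/-- A set of vertices of a connected induced subgraph which is not empty and closed under
adjacency contains all vertices. -/
lemma closed_all {V : Type u} {G : SimpleGraph V} {S : Set V} (h : (G.induce S).Connected)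
    (T : Set V) {x : V} (hxS : x ∈ S) (hxT : x ∈ T)
    (hcl : ∀ y ∈ S, y ∈ T → ∀ z ∈ S, G.Adj y z → z ∈ T) : ∀ y ∈ S, y ∈ T := by
  intro y hy
  have hr := h.preconnected ⟨x, hxS⟩ ⟨y, hy⟩
  rw [SimpleGraph.reachable_iff_reflTransGen] at hr
  have key : ∀ z : S, ReflTransGen (G.induce S).Adj ⟨x, hxS⟩ z → z.1 ∈ T := by
    intro z hz
    induction hz with
    | refl => exact hxT
    | tail _ r ih => exact hcl _ (Subtype.prop _) ih _ (Subtype.prop _) r
  exact key ⟨y, hy⟩ hr

theorem negative (lam θ : Cardinal.{u}) (hlam : ℵ₀ ≤ lam) (hθ : lam ≤ θ) :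
    ¬ Arrow (Order.succ lam) lam θ := by
  classical
  intro harr
  let V : Type u := (Order.succ lam).ord.ToType
  let C : Type u := θ.out
  have hV : #V = Order.succ lam := mk_ord_toType _
  have hC : #C = θ := mk_out θ
  have hinj : ∀ b : V, Nonempty (Iio b ↪ C) := by
    intro b
    rw [← Cardinal.le_def]
    have h1 : #(Iio b) < Order.succ lam := by
      have := mk_Iio_lt (α := (Order.succ lam).ord.ToType) b (by simp)
      simpa using this
    rw [hC]
    exact (Order.lt_succ_iff.1 h1).trans hθ
  let e : ∀ b : V, Iio b ↪ C := fun b => (hinj b).some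
  have hCne : Nonempty C := by
    rw [← mk_ne_zero_iff, hC]
    intro h0
    rw [h0] at hθ
    exact absurd (hlam.trans hθ) (by simp [aleph0_ne_zero])
  let f : V → V → C := fun x y =>
    if h : x < y then e y ⟨x, h⟩ else if h : y < x then e x ⟨y, h⟩ else Classical.arbitrary C
  have hf : ∀ x y, f x y = f y x := by
    intro x y
    simp only [f]
    rcases lt_trichotomy x y with h | h | h
    · simp [h, h.not_gt]
    · subst h; rfl
    · simp [h, h.not_gt]
  let c : Sym2 V → C := Sym2.lift ⟨f, hf⟩
  have hcl : ∀ x y (h : x < y), c s(x, y) = e y ⟨x, h⟩ := by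
    intro x y h
    show f x y = _
    simp only [f, h, dif_pos]
  obtain ⟨i, A, hA, hHC⟩ := harr V C hV hC c
  have hAinf : ℵ₀ ≤ #A := by rw [hA]; exact hlam
  have hAinf' : A.Infinite := by
    rw [Set.infinite_coe_iff.symm, Cardinal.infinite_iff]; exact hAinf
  have hfin : ∀ x : V, x ∈ A → ((colGraph c i).induce (A \ {x})).Connected := by
    intro x hx
    apply hHC _ (singleton_subset_iff.2 hx)
    rw [mk_singleton]
    exact one_lt_aleph0.trans_le hAinf
  -- at most one smaller neighbour
  have hpar : ∀ x x' y : V, x < y → x' < y → (colGraph c i).Adj x y → (colGraph c i).Adj x' y →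
      x = x' := by
    intro x x' y h h' ha ha'
    have h1 := ha.2
    have h2 := ha'.2
    rw [hcl _ _ h] at h1
    rw [hcl _ _ h'] at h2
    have := (e y).injective (h1.trans h2.symm)
    exact congrArg Subtype.val this
  -- the least element of `A`
  obtain ⟨r, hr, hrmin⟩ := (wellFounded_lt (α := V)).has_min A hAinf'.nonempty
  have hB : (A \ {r}).Infinite := hAinf'.sdiff (finite_singleton r)
  obtain ⟨x0, hx0, hx0min⟩ := (wellFounded_lt (α := V)).has_min (A \ {r}) hB.nonempty
  -- every neighbour of `r` in `A` is `x0`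
  have hchild : ∀ x ∈ A, (colGraph c i).Adj r x → x = x0 := by
    intro x hx hadj
    have hrx : r < x := lt_of_le_of_ne (not_lt.1 (hrmin x hx)) hadj.1
    by_contra hne
    have hx0x : x0 < x :=
      lt_of_le_of_ne (not_lt.1 (hx0min x ⟨hx, hadj.1.symm⟩)) (Ne.symm hne)
    let ch : V → V → Prop := fun a b => a < b ∧ a ∈ A \ {r} ∧ b ∈ A \ {r} ∧ (colGraph c i).Adj a b
    have hge : ∀ y, ReflTransGen ch x y → x ≤ y := by
      intro y hy
      induction hy with
      | refl => exact le_rfl
      | tail _ h ih => exact ih.trans h.1.le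
    have := closed_all (hfin r hr) {y | ReflTransGen ch x y} (x := x) ⟨hx, hadj.1.symm⟩
      ReflTransGen.refl (by
        intro y hy hxy z hz hyz
        rcases lt_trichotomy y z with h | h | h
        · exact ReflTransGen.tail hxy ⟨h, hy, hz, hyz⟩
        · exact absurd h hyz.1
        · rcases ReflTransGen.cases_tail hxy with h1 | ⟨w, hw1, hw2⟩
          · subst h1
            exact absurd (hpar z r y h hrx hyz.symm hadj) hz.2
          · have := hpar z w y h hw2.1 hyz.symm hw2.2.2.2
            rw [this]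
            exact hw1) x0 hx0
    exact absurd (hge x0 this) (not_le.2 hx0x)
  -- `r` is isolated after the removal of `x0`
  have h3 := closed_all (hfin x0 hx0.1) {r} (x := r) ⟨hr, fun h => hx0.2 h.symm⟩ rfl (by
    intro y _ hy' z hz hyz
    rw [mem_singleton_iff] at hy'
    subst hy'
    exact absurd (hchild z hz.1 hyz) hz.2)
  have h4 : (A \ {x0, r}).Infinite := hAinf'.sdiff (by simp)
  obtain ⟨y, hy⟩ := h4.nonempty
  have h5 := h3 y ⟨hy.1, fun h => hy.2 (by rw [mem_singleton_iff] at h; simp [h])⟩
  exact hy.2 (by rw [mem_singleton_iff] at h5; simp [h5])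

/-- (1) For every infinite regular cardinal `λ`, all `θ < λ` and all `κ > λ`:
`κ →_hc (λ)²_θ`.
(2) For every infinite regular cardinal `λ` and every cardinal `θ`:
`λ⁺ →_hc (λ)²_θ` if and only if `θ < λ`.
(3) For every infinite cardinal `λ` and `θ ≥ λ`, the relation `λ⁺ →_hc (λ)²_θ` fails. -/
theorem result :
    (∀ κ lam θ : Cardinal.{u}, lam.IsRegular → θ < lam → lam < κ → Arrow κ lam θ) ∧
    (∀ lam θ : Cardinal.{u}, lam.IsRegular → (Arrow (Order.succ lam) lam θ ↔ θ < lam)) ∧
    (∀ lam θ : Cardinal.{u}, ℵ₀ ≤ lam → lam ≤ θ → ¬ Arrow (Order.succ lam) lam θ) :=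
  ⟨fun κ lam θ hreg hθ hκ => positive κ lam θ hreg hκ hθ,
    fun lam θ hreg => ⟨fun h => by
      by_contra hc
      exact negative lam θ hreg.aleph0_le (not_lt.1 hc) h,
      fun h => positive _ lam θ hreg (Order.lt_succ lam) h⟩,
    fun lam θ h1 h2 => negative lam θ h1 h2⟩

/-- The relation of the problem, `ℵ₂ →_hc (ℵ₁)²_ω`, is the case `λ = ℵ₁`, `θ = ℵ₀`. -/
theorem problem : Arrow (ℵ_ 2 : Cardinal.{0}) (ℵ_ 1) ℵ₀ := by
  refine result.1 _ _ _ isRegular_aleph_one aleph0_lt_aleph_one ?_
  rw [aleph_lt_aleph]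
  norm_num

end Pool.Agent.Results.MP_7bf93d_lc.AllRegularCardinals
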